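import Pool.Agent.Helper9_CG.Stmt
import Pool.Agent.Helper10_LLG.Clu

/-!
# CG, module CLUC: a lower bound for the probability that the cluster of the vertices of `U` is `U`
-/

set_option autoImplicit false

namespace Pool.Agent.CG.H68

open SimpleGraph Pool.Agent.LAG Pool.Agent.LLG Pool.Agent.LLG.H10

/-- all boundary edges are closed -/
theorem out1 {E : Type} [Fintype E] [DecidableEq E] (Bd : Finset E) (k : ℕ) (hk : 2 ≤ k) :
    Real.exp (-(2 * (Bd.card : ℝ) / k)) * (Fintype.card (E → Fin k) : ℝ) ≤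
    ((Finset.univ.filter (fun b : E → Fin k => ∀ e ∈ Bd, 1 ≤ (b e).val)).card : ℝ) := by
  classical
  have hk0 : (0 : ℝ) < k := by
    have : (2 : ℝ) ≤ k := by exact_mod_cast hk
    linarith
  have hk2 : (2 : ℝ) ≤ k := by exact_mod_cast hk
  have h1 : (Finset.univ.filter (fun b : E → Fin k => ∀ e ∈ Bd, 1 ≤ (b e).val)) =
      Fintype.piFinset (fun e =>
        if e ∈ Bd then Finset.univ.filter (fun x : Fin k => 1 ≤ x.val) else Finset.univ) := by
    ext b
    simp only [Finset.mem_filter, Finset.mem_univ, true_and, Fintype.mem_piFinset]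
    constructor
    · intro h e
      by_cases he : e ∈ Bd
      · rw [if_pos he]
        simpa using h e he
      · rw [if_neg he]
        exact Finset.mem_univ _
    · intro h e he
      have := h e
      rw [if_pos he] at this
      simpa using this
  rw [h1, Fintype.card_piFinset, Fintype.card_fun, Fintype.card_fin]
  push_cast
  have h3 : Real.exp (-(2 * (Bd.card : ℝ) / k)) * (k : ℝ) ^ (Fintype.card E) =
      ∏ e : E, ((if e ∈ Bd then Real.exp (-(2 * (1 / (k : ℝ)))) else 1) * (k : ℝ)) := by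
    rw [Finset.prod_mul_distrib, Finset.prod_const, Finset.card_univ, Finset.prod_ite_mem,
      Finset.univ_inter, Finset.prod_const, ← Real.exp_nat_mul]
    congr 2
    ring
  rw [h3]
  apply Finset.prod_le_prod
  · intro e _
    split_ifs
    · positivity
    · positivity
  · intro e _
    by_cases he : e ∈ Bd
    · rw [if_pos he, if_pos he]
      have h4 : Real.exp (-(2 * (1 / (k : ℝ)))) ≤ 1 - 1 / (k : ℝ) := by
        apply exp_le_one_sub
        · positivity
        · rw [div_le_iff₀ hk0]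
          linarith
      have h5 := card_ge_thr k 1
      calc Real.exp (-(2 * (1 / (k : ℝ)))) * (k : ℝ) ≤ (1 - 1 / (k : ℝ)) * k :=
            mul_le_mul_of_nonneg_right h4 hk0.le
        _ = (k : ℝ) - (1 : ℕ) := by field_simp; norm_num
        _ ≤ _ := h5
    · rw [if_neg he, if_neg he, one_mul, Finset.card_univ, Fintype.card_fin]

theorem ins_induce {W : Type} (Γ : SimpleGraph W) (U : Set W) (K : Set U) :
    ins (Γ.induce U) K = ins Γ (Subtype.val '' K : Set W) := by
  unfold ins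
  have h3 : {e : W × W | e.1 ∈ (Subtype.val '' K : Set W) ∧ e.2 ∈ (Subtype.val '' K : Set W) ∧
      Γ.Adj e.1 e.2} = (fun e : U × U => (e.1.1, e.2.1)) ''
        {e : U × U | e.1 ∈ K ∧ e.2 ∈ K ∧ (Γ.induce U).Adj e.1 e.2} := by
    ext e
    constructor
    · rintro ⟨⟨a, ha, ha'⟩, ⟨b, hb, hb'⟩, hab⟩
      refine ⟨(a, b), ⟨ha, hb, ?_⟩, Prod.ext ha' hb'⟩
      change Γ.Adj a.1 b.1
      rw [ha', hb']
      exact hab
    · rintro ⟨⟨a, b⟩, ⟨ha, hb, hab⟩, rfl⟩
      exact ⟨⟨a, ha, rfl⟩, ⟨b, hb, rfl⟩, hab⟩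
  rw [h3, Set.ncard_image_of_injective]
  intro a b hab
  simp only [Prod.mk.injEq] at hab
  exact Prod.ext (Subtype.ext hab.1) (Subtype.ext hab.2)

theorem spd_induce {W : Type} (Γ : SimpleGraph W) (U : Set W) (D m : ℕ) (h : SpD Γ D m) :
    SpD (Γ.induce U) D m := by
  intro K hK
  have h1 : (Subtype.val '' K : Set W).ncard = K.ncard :=
    Set.ncard_image_of_injective K Subtype.val_injective
  have h2 := h (Subtype.val '' K) (by rw [h1]; exact hK)
  rw [h1] at h2
  rw [ins_induce]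
  exact h2

theorem deg_induce {W : Type} (Γ : SimpleGraph W) (U : Set W) (x : U) :
    ((Γ.induce U).neighborSet x).ncard = dg Γ U x.1 := by
  unfold dg
  rw [← Set.ncard_image_of_injective ((Γ.induce U).neighborSet x) Subtype.val_injective]
  congr 1
  ext y
  constructor
  · rintro ⟨z, hz, rfl⟩
    exact ⟨z.2, hz⟩
  · rintro ⟨h1, h2⟩
    exact ⟨⟨y, h1⟩, h2, rfl⟩

theorem vp_induce {W : Type} (Γ : SimpleGraph W) (U : Set W) (w : ℕ) :
    {v : U | ((Γ.induce U).neighborSet v).ncard < w}.ncard = vp Γ w U := by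
  unfold vp
  rw [← Set.ncard_image_of_injective {v : U | ((Γ.induce U).neighborSet v).ncard < w}
    Subtype.val_injective]
  congr 1
  ext y
  constructor
  · rintro ⟨z, hz, rfl⟩
    refine ⟨z.2, ?_⟩
    rw [← deg_induce Γ U z]
    exact hz
  · rintro ⟨h1, h2⟩
    refine ⟨⟨y, h1⟩, ?_, rfl⟩
    change ((Γ.induce U).neighborSet _).ncard < w
    rw [deg_induce]
    exact h2

section glue

variable {W : Type} {Γ : SimpleGraph W} {c : ℕ} (U : Finset W)

/-- picks outside of `U` -/
abbrev Po (Γ : SimpleGraph W) (c : ℕ) (U : Finset W) : Type :=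
  (z : {z : W // z ∉ U}) → Fin c → {y : W // y ∉ U ∧ Γ.Adj z.1 y}

open Classical in
/-- gluing of the picks -/
noncomputable def gP (q : Pk (Γ.induce (U : Set W)) c × Po Γ c U) : Pk Γ c := fun z =>
  if h : z ∈ U then fun i => ⟨((q.1 ⟨z, h⟩ i).1).1, (q.1 ⟨z, h⟩ i).2⟩
  else fun i => ⟨(q.2 ⟨z, h⟩ i).1, (q.2 ⟨z, h⟩ i).2.2⟩

theorem gP_in (q : Pk (Γ.induce (U : Set W)) c × Po Γ c U) (z : W) (h : z ∈ U) (i : Fin c) :
    (gP U q z i : W) = ((q.1 ⟨z, h⟩ i).1).1 := by
  unfold gP
  rw [dif_pos h]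

theorem gP_out (q : Pk (Γ.induce (U : Set W)) c × Po Γ c U) (z : W) (h : z ∉ U) (i : Fin c) :
    (gP U q z i : W) = (q.2 ⟨z, h⟩ i).1 := by
  unfold gP
  rw [dif_neg h]

theorem gP_inj : Function.Injective (gP (Γ := Γ) (c := c) U) := by
  intro p q h
  apply Prod.ext
  · funext z i
    apply Subtype.ext
    apply Subtype.ext
    have h1 := gP_in U p z.1 z.2 i
    have h2 := gP_in U q z.1 z.2 i
    rw [h] at h1
    exact h1.symm.trans h2
  · funext z i
    apply Subtype.ext
    have h1 := gP_out U p z.1 z.2 i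
    have h2 := gP_out U q z.1 z.2 i
    rw [h] at h1
    exact h1.symm.trans h2

/-- gluing of functions -/
noncomputable def g2 {A B α : Type} (ι : A → B) (hι : Function.Injective ι)
    (p : (A → α) × ({b : B // b ∉ Set.range ι} → α)) : B → α :=
  fun b => Sum.elim p.1 p.2 ((splt ι hι).symm b)

theorem g2_inl {A B α : Type} (ι : A → B) (hι : Function.Injective ι)
    (p : (A → α) × ({b : B // b ∉ Set.range ι} → α)) (a : A) :
    g2 ι hι p (ι a) = p.1 a := by
  unfold g2
  rw [splt_inl]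
  rfl

theorem g2_inr {A B α : Type} (ι : A → B) (hι : Function.Injective ι)
    (p : (A → α) × ({b : B // b ∉ Set.range ι} → α)) (b : {b : B // b ∉ Set.range ι}) :
    g2 ι hι p b.1 = p.2 b := by
  unfold g2
  rw [splt_inr]
  rfl

theorem g2_inj {A B α : Type} (ι : A → B) (hι : Function.Injective ι) :
    Function.Injective (g2 (α := α) ι hι) := by
  intro p q h
  apply Prod.ext
  · funext a
    rw [← g2_inl ι hι p a, h, g2_inl]
  · funext b
    rw [← g2_inr ι hι p b, h, g2_inr]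

end glue

/-- cardinalities of the spaces of picks -/
theorem card_picks {W : Type} [Fintype W] (Γ : SimpleGraph W) (k c : ℕ) (hk : 2 ≤ k)
    [Fintype (Pk Γ c)] (hreg : ∀ v, (Γ.neighborSet v).ncard = k) (U : Finset W)
    [Fintype (Pk (Γ.induce (U : Set W)) c)] [Fintype (Po Γ c U)] :
    (∏ z : W, uu Γ k (U : Set W) z ^ c) * (Fintype.card (Pk Γ c) : ℝ) =
      (Fintype.card (Pk (Γ.induce (U : Set W)) c) : ℝ) * (Fintype.card (Po Γ c U) : ℝ) := by
  classical
  have hk0 : (k : ℝ) ≠ 0 := by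
    have : (2 : ℝ) ≤ k := by exact_mod_cast hk
    linarith
  have e1 : (Fintype.card (Pk Γ c) : ℝ) = ∏ _z : W, (k : ℝ) ^ c := by
    rw [← Nat.card_eq_fintype_card, Nat.card_pi]
    push_cast
    refine Finset.prod_congr rfl fun z _ => ?_
    rw [Nat.card_fun, Nat.card_eq_fintype_card (α := Fin c), Fintype.card_fin,
      Nat.card_coe_set_eq, hreg z]
    push_cast
    rfl
  have e2 : (Fintype.card (Pk (Γ.induce (U : Set W)) c) : ℝ) =
      ∏ z : {z : W // z ∈ U}, (dg Γ (U : Set W) z.1 : ℝ) ^ c := by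
    rw [← Nat.card_eq_fintype_card, Nat.card_pi]
    push_cast
    refine Finset.prod_congr rfl fun z _ => ?_
    rw [Nat.card_fun, Nat.card_eq_fintype_card (α := Fin c), Fintype.card_fin,
      Nat.card_coe_set_eq, deg_induce]
    push_cast
    rfl
  have hout : ∀ z : W, (k : ℝ) - dg Γ (U : Set W) z =
      (Nat.card {y : W // y ∉ U ∧ Γ.Adj z y} : ℝ) := by
    intro z
    have h1 : (Γ.neighborSet z) = {y | y ∈ (U : Set W) ∧ Γ.Adj z y} ∪ {y | y ∉ U ∧ Γ.Adj z y} := by
      ext y
      simp only [mem_neighborSet, Set.mem_union, Set.mem_ofPred_eq, Finset.mem_coe]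
      tauto
    have h2 : Disjoint {y | y ∈ (U : Set W) ∧ Γ.Adj z y} {y | y ∉ U ∧ Γ.Adj z y} := by
      rw [Set.disjoint_left]
      rintro y ⟨h3, _⟩ ⟨h4, _⟩
      exact h4 h3
    have h3 := hreg z
    rw [h1, Set.ncard_union_eq h2] at h3
    have h4 : Nat.card {y : W // y ∉ U ∧ Γ.Adj z y} = {y | y ∉ U ∧ Γ.Adj z y}.ncard :=
      Nat.card_coe_set_eq _
    have h5 : (k : ℝ) = ({y | y ∈ (U : Set W) ∧ Γ.Adj z y}.ncard : ℝ) +
        ({y | y ∉ U ∧ Γ.Adj z y}.ncard : ℝ) := by
      exact_mod_cast h3.symm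
    rw [h4, h5]
    unfold dg
    ring
  have e3 : (Fintype.card (Po Γ c U) : ℝ) =
      ∏ z : {z : W // ¬ z ∈ U}, ((k : ℝ) - dg Γ (U : Set W) z.1) ^ c := by
    rw [← Nat.card_eq_fintype_card, Nat.card_pi]
    push_cast
    refine Finset.prod_congr rfl fun z _ => ?_
    rw [Nat.card_fun, Nat.card_eq_fintype_card (α := Fin c), Fintype.card_fin, hout z.1]
    push_cast
    rfl
  rw [e1, e2, e3, ← Finset.prod_mul_distrib,
    ← Fintype.prod_subtype_mul_prod_subtype (fun z => z ∈ U)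
      (fun z => uu Γ k (U : Set W) z ^ c * (k : ℝ) ^ c)]
  congr 1
  · refine Finset.prod_congr (by ext; simp) fun z _ => ?_
    have hz : z.1 ∈ (U : Set W) := z.2
    unfold uu
    rw [if_pos hz, ← mul_pow]
    congr 1
    field_simp
  · refine Finset.prod_congr (by ext; simp) fun z _ => ?_
    have hz : ¬ z.1 ∈ (U : Set W) := z.2
    unfold uu
    rw [if_neg hz, ← mul_pow]
    congr 1
    field_simp

/-- the inner part: Jensen -/
theorem inner {X : Type} [Fintype X] [DecidableEq X] (hpick : PickStmt) (hspr : Spr0Stmt)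
    (Γ : SimpleGraph X) (k c m D w : ℕ) [Fintype (Pk Γ c)] (hk : 2 ≤ k) (hc : 1 ≤ c) (hm : 1 ≤ m)
    (hw : 1 ≤ w) (hdeg : ∀ v, 1 ≤ (Γ.neighborSet v).ncard ∧ (Γ.neighborSet v).ncard ≤ k)
    (hsp : SpD Γ D m) (hnum : (k : ℝ) ^ 2 * ((D : ℝ) / w) ^ c ≤ 1 / 2) (hcon : Γ.Connected)
    [DecidablePred fun ω : Pk Γ c × (Sym2 X → Fin k) => (pg ω.1 ⊔ opn Γ ω.2 1).Connected] :
    Real.exp (-(Real.log k * (({v : X | (Γ.neighborSet v).ncard < w}.ncard : ℝ) +
      kap k c m D w * Fintype.card X))) *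
        ((Fintype.card (Pk Γ c) : ℝ) * (Fintype.card (Sym2 X → Fin k) : ℝ)) ≤
      ((Finset.univ.filter fun ω : Pk Γ c × (Sym2 X → Fin k) =>
        (pg ω.1 ⊔ opn Γ ω.2 1).Connected).card : ℝ) := by
  classical
  have hP := hpick X Γ k c m D w hc hm hw hdeg hsp hnum
  have hk0 : (0 : ℝ) < k := by
    have : (2 : ℝ) ≤ k := by exact_mod_cast hk
    linarith
  have hlog : 0 ≤ Real.log k := Real.log_nonneg (by
    have : (2 : ℝ) ≤ k := by exact_mod_cast hk
    linarith)
  set K : ℝ := ({v : X | (Γ.neighborSet v).ncard < w}.ncard : ℝ) +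
      kap k c m D w * Fintype.card X with hK
  set a : ℝ := -(Real.log k * K) with ha
  have hS : (0 : ℝ) < (Fintype.card (Sym2 X → Fin k) : ℝ) := by
    have : Nonempty (Sym2 X → Fin k) := ⟨fun _ => ⟨0, by omega⟩⟩
    exact_mod_cast Fintype.card_pos
  -- the number for fixed picks
  have h1 : ∀ π : Pk Γ c, Real.exp (-(Real.log k * (cc (pg π) : ℝ))) *
      (Fintype.card (Sym2 X → Fin k) : ℝ) ≤
      ((Finset.univ.filter fun ω : Sym2 X → Fin k => (pg π ⊔ opn Γ ω 1).Connected).card : ℝ) := by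
    intro π
    have h2 : pg π ≤ Γ := by
      intro x y hxy
      rcases hxy with ⟨i, hi⟩ | ⟨i, hi⟩
      · have h3 : Γ.Adj x (π x i : X) := (π x i).2
        rwa [hi] at h3
      · have h3 : Γ.Adj y (π y i : X) := (π y i).2
        rw [hi] at h3
        exact h3.symm
    have h3 := hspr X Γ (pg π) k hk hcon h2
    rw [av_ind, le_div_iff₀ hS] at h3
    have h4 : Real.exp (-(Real.log k * (cc (pg π) : ℝ))) = ((k : ℝ) ^ (cc (pg π)))⁻¹ := by
      rw [Real.exp_neg, mul_comm, Real.exp_nat_mul, Real.exp_log hk0]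
    rw [h4]
    exact h3
  have h2 : ((Finset.univ.filter fun ω : Pk Γ c × (Sym2 X → Fin k) =>
        (pg ω.1 ⊔ opn Γ ω.2 1).Connected).card : ℝ) =
      ∑ π : Pk Γ c, ((Finset.univ.filter fun ω : Sym2 X → Fin k =>
        (pg π ⊔ opn Γ ω 1).Connected).card : ℝ) := by
    rw [Finset.card_filter, Fintype.sum_prod_type]
    push_cast
    refine Finset.sum_congr rfl fun π _ => ?_
    rw [Finset.card_filter]
    push_cast
    rfl
  rw [h2]
  have h3 : ∀ π : Pk Γ c, Real.exp a * (1 + (-(Real.log k * (cc (pg π) : ℝ)) - a)) ≤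
      Real.exp (-(Real.log k * (cc (pg π) : ℝ))) := by
    intro π
    have h4 := Real.add_one_le_exp (-(Real.log k * (cc (pg π) : ℝ)) - a)
    have h5 : Real.exp (-(Real.log k * (cc (pg π) : ℝ))) =
        Real.exp a * Real.exp (-(Real.log k * (cc (pg π) : ℝ)) - a) := by
      rw [← Real.exp_add]
      congr 1
      ring
    rw [h5]
    apply mul_le_mul_of_nonneg_left _ (Real.exp_pos _).le
    linarith
  have h4 : Real.exp a * (Fintype.card (Pk Γ c) : ℝ) ≤
      ∑ π : Pk Γ c, Real.exp (-(Real.log k * (cc (pg π) : ℝ))) := by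
    refine le_trans ?_ (Finset.sum_le_sum fun π _ => h3 π)
    rw [← Finset.mul_sum]
    apply mul_le_mul_of_nonneg_left _ (Real.exp_pos _).le
    have h5 : ∑ π : Pk Γ c, (1 + (-(Real.log k * (cc (pg π) : ℝ)) - a)) =
        (Fintype.card (Pk Γ c) : ℝ) - Real.log k * (∑ π : Pk Γ c, (cc (pg π) : ℝ)) -
          (Fintype.card (Pk Γ c) : ℝ) * a := by
      rw [Finset.mul_sum]
      simp only [Finset.sum_add_distrib, Finset.sum_sub_distrib, Finset.sum_const,
        Finset.card_univ, nsmul_eq_mul, mul_one, Finset.sum_neg_distrib]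
      ring
    rw [h5]
    have h6 := mul_le_mul_of_nonneg_left hP hlog
    have h7 : (Fintype.card (Pk Γ c) : ℝ) * a =
        -(Real.log k * ((Fintype.card (Pk Γ c) : ℝ) * K)) := by
      rw [ha]; ring
    rw [h7]
    linarith
  calc Real.exp a * ((Fintype.card (Pk Γ c) : ℝ) * (Fintype.card (Sym2 X → Fin k) : ℝ))
      = (Real.exp a * (Fintype.card (Pk Γ c) : ℝ)) * (Fintype.card (Sym2 X → Fin k) : ℝ) := by
        ring
    _ ≤ (∑ π : Pk Γ c, Real.exp (-(Real.log k * (cc (pg π) : ℝ)))) *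
        (Fintype.card (Sym2 X → Fin k) : ℝ) := mul_le_mul_of_nonneg_right h4 hS.le
    _ = ∑ π : Pk Γ c, Real.exp (-(Real.log k * (cc (pg π) : ℝ))) *
        (Fintype.card (Sym2 X → Fin k) : ℝ) := by rw [Finset.sum_mul]
    _ ≤ _ := Finset.sum_le_sum fun π _ => h1 π

theorem cluc (hpick : PickStmt) (hspr : Spr0Stmt) : ClucStmt := by
  classical
  intro W _ _ Γ k c m D w _ hk hc hm hw hreg hsp hnum U hU
  rw [av_ind]
  set NT := Finset.univ.filter (fun ω : Pk Γ c × (Sym2 W → Fin k) =>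
    ∀ v ∈ U, {z | (pg ω.1 ⊔ opn Γ ω.2 1).Reachable v z} = (U : Set W)) with hNT
  have hk0 : (0 : ℝ) < k := by
    have : (2 : ℝ) ≤ k := by exact_mod_cast hk
    linarith
  by_cases h0 : ∃ z ∈ U, dg Γ (U : Set W) z = 0
  · obtain ⟨z, hz, hz0⟩ := h0
    have h1 : Wt Γ k c w (kap k c m D w) (U : Set W) = 0 := by
      unfold Wt
      rw [Finset.prod_eq_zero (Finset.mem_univ z), zero_mul]
      unfold uu
      have hz' : z ∈ (U : Set W) := hz
      rw [if_pos hz', hz0, Nat.cast_zero, zero_div, zero_pow (by omega)]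
    rw [h1]
    positivity
  push Not at h0
  set X : Type := ((U : Set W) : Type) with hX
  set ι : Sym2 X → Sym2 W := Sym2.map Subtype.val with hι
  have hinj : Function.Injective ι := Sym2.map.injective Subtype.val_injective
  set C : Type := {e : Sym2 W // e ∉ Set.range ι} with hC
  set Bd : Finset C := Finset.univ.filter
    (fun e : C => ∃ a b, a ∈ U ∧ b ∉ U ∧ Γ.Adj a b ∧ e.1 = s(a, b)) with hBd
  set Γ' : SimpleGraph X := Γ.induce (U : Set W) with hΓ'
  have hin := inner hpick hspr Γ' k c m D w hk hc hm hw (fun v => by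
    rw [deg_induce]
    refine ⟨Nat.one_le_iff_ne_zero.mpr (h0 v.1 v.2), ?_⟩
    rw [← hreg v.1]
    unfold dg
    exact Set.ncard_le_ncard (fun y hy => hy.2) (Set.toFinite _))
    (spd_induce Γ _ D m hsp) hnum hU
  have hout := out1 Bd k hk
  have hpk := card_picks Γ k c hk hreg U
  set NI := Finset.univ.filter (fun ω : Pk Γ' c × (Sym2 X → Fin k) =>
    (pg ω.1 ⊔ opn Γ' ω.2 1).Connected) with hNI
  set NO := Finset.univ.filter (fun b : C → Fin k => ∀ e ∈ Bd, 1 ≤ (b e).val) with hNO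
  have hcard : NI.card * (Fintype.card (Po Γ c U) * NO.card) ≤ NT.card := by
    rw [← Finset.card_univ, ← Finset.card_product, ← Finset.card_product]
    apply Finset.card_le_card_of_injOn
      (fun p : (Pk Γ' c × (Sym2 X → Fin k)) × (Po Γ c U × (C → Fin k)) =>
        ((gP U (p.1.1, p.2.1), g2 ι hinj (p.1.2, p.2.2)) : Pk Γ c × (Sym2 W → Fin k)))
    · rintro ⟨⟨a, a'⟩, ⟨b, b'⟩⟩ hab
      rw [Finset.mem_coe, Finset.mem_product, Finset.mem_product] at hab
      obtain ⟨ha, -, hb⟩ := hab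
      rw [hNI, Finset.mem_filter] at ha
      rw [hNO, Finset.mem_filter] at hb
      simp only at ha hb
      rw [Finset.mem_coe, hNT, Finset.mem_filter]
      refine ⟨Finset.mem_univ _, ?_⟩
      simp only
      set π := gP U (a, b) with hπ
      set ω := g2 ι hinj (a', b') with hω
      -- no edge leaves U
      have hno : ∀ x y, x ∈ U → (pg π ⊔ opn Γ ω 1).Adj x y → y ∈ U := by
        intro x y hx hxy
        by_contra hy
        rcases hxy with (⟨i, hi⟩ | ⟨i, hi⟩) | ⟨hΓ, hi⟩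
        · rw [hπ, gP_in U (a, b) x hx i] at hi
          exact hy (by rw [← hi]; exact ((a ⟨x, hx⟩ i).1).2)
        · rw [hπ, gP_out U (a, b) y hy i] at hi
          have h1 := (b ⟨y, hy⟩ i).2.1
          rw [hi] at h1
          exact h1 hx
        · have hr : s(x, y) ∉ Set.range ι := by
            rintro ⟨e, he⟩
            induction e with
            | _ p q =>
              have he' : s(p.1, q.1) = s(x, y) := he
              have hpq := Sym2.eq_iff.mp he'
              rcases hpq with ⟨_, h2⟩ | ⟨h1, _⟩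
              · exact hy (by rw [← h2]; exact q.2)
              · exact hy (by rw [← h1]; exact p.2)
          have h5 := hb.2 ⟨s(x, y), hr⟩ (by
            rw [hBd, Finset.mem_filter]
            exact ⟨Finset.mem_univ _, x, y, hx, hy, hΓ, rfl⟩)
          have h6 : ω s(x, y) = b' ⟨s(x, y), hr⟩ := g2_inr ι hinj (a', b') ⟨s(x, y), hr⟩
          rw [h6] at hi
          omega
      have hstay : ∀ (x y : W) (p : (pg π ⊔ opn Γ ω 1).Walk x y), x ∈ U → y ∈ U := by
        intro x y p
        induction p with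
        | nil => exact fun h => h
        | cons h p ih => exact fun hx => ih (hno _ _ hx h)
      -- inside
      have hhom : ∀ x y : X, (pg a ⊔ opn Γ' a' 1).Adj x y → (pg π ⊔ opn Γ ω 1).Adj x.1 y.1 := by
        rintro x y ((⟨i, hi⟩ | ⟨i, hi⟩) | ⟨h1, hi⟩)
        · left; left
          refine ⟨i, ?_⟩
          rw [hπ, gP_in U (a, b) x.1 x.2 i]
          exact congrArg Subtype.val hi
        · left; right
          refine ⟨i, ?_⟩
          rw [hπ, gP_in U (a, b) y.1 y.2 i]
          exact congrArg Subtype.val hi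
        · right
          refine ⟨h1, ?_⟩
          have h2 : ω (ι s(x, y)) = a' s(x, y) := g2_inl ι hinj (a', b') s(x, y)
          have h3 : ι s(x, y) = s(x.1, y.1) := rfl
          rw [h3] at h2
          rw [h2]
          exact hi
      let f : (pg a ⊔ opn Γ' a' 1) →g (pg π ⊔ opn Γ ω 1) :=
        ⟨Subtype.val, fun {x y} h => hhom x y h⟩
      intro v hv
      ext z
      constructor
      · rintro ⟨p⟩
        exact hstay v z p hv
      · intro hz
        exact (ha.2.preconnected ⟨v, hv⟩ ⟨z, hz⟩).map f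
    · rintro ⟨⟨a, a'⟩, ⟨b, b'⟩⟩ _ ⟨⟨a1, a1'⟩, ⟨b1, b1'⟩⟩ _ h
      simp only [Prod.mk.injEq] at h
      have h1 := gP_inj U h.1
      have h2 := g2_inj ι hinj h.2
      simp only [Prod.mk.injEq] at h1 h2 ⊢
      exact ⟨⟨h1.1, h2.1⟩, ⟨h1.2, h2.2⟩⟩
  have hΩ : Fintype.card (Sym2 W → Fin k) =
      Fintype.card (Sym2 X → Fin k) * Fintype.card (C → Fin k) := by
    have h1 := Fintype.card_congr (splt ι hinj)
    rw [Fintype.card_sum] at h1
    simp only [Fintype.card_fun]
    rw [← pow_add, h1]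
  have hBdc : Bd.card ≤ bd Γ (U : Set W) := by
    have h1 : bd Γ (U : Set W) = (Finset.univ.filter
        (fun e : W × W => e.1 ∈ U ∧ e.2 ∉ U ∧ Γ.Adj e.1 e.2)).card := by
      unfold bd
      rw [← Set.ncard_coe_finset]
      congr 1
      ext e; simp
    rw [h1]
    have h2 : (Bd.image Subtype.val) ⊆ (Finset.univ.filter
        (fun e : W × W => e.1 ∈ U ∧ e.2 ∉ U ∧ Γ.Adj e.1 e.2)).image (fun e => s(e.1, e.2)) := by
      intro e he
      rw [Finset.mem_image] at he
      obtain ⟨c, hc, rfl⟩ := he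
      rw [hBd, Finset.mem_filter] at hc
      obtain ⟨_, x, y, hx, hy, hxy, hc⟩ := hc
      rw [Finset.mem_image]
      exact ⟨(x, y), by simp [hx, hy, hxy], hc.symm⟩
    calc Bd.card = (Bd.image Subtype.val).card :=
          (Finset.card_image_of_injective _ Subtype.val_injective).symm
      _ ≤ _ := Finset.card_le_card h2
      _ ≤ _ := Finset.card_image_le
  have hXc : (Fintype.card X : ℝ) = (U : Set W).ncard := by
    have : Fintype.card X = U.card := Fintype.card_coe U
    rw [this, Set.ncard_coe_finset]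
  have hB' : (Bd.card : ℝ) ≤ bd Γ (U : Set W) := by exact_mod_cast hBdc
  -- numbers
  rw [vp_induce, hXc] at hin
  have p1 : (0 : ℝ) < (Fintype.card (Pk Γ c × (Sym2 W → Fin k)) : ℝ) := by
    have h1 : Nonempty (Sym2 W → Fin k) := ⟨fun _ => ⟨0, by omega⟩⟩
    have h2 : Nonempty (Pk Γ c) := by
      refine ⟨fun z _ => ?_⟩
      have h3 : (Γ.neighborSet z).Nonempty := by
        rw [← Set.ncard_pos (Set.toFinite _), hreg z]
        omega
      exact ⟨h3.some, h3.some_mem⟩
    exact_mod_cast Fintype.card_pos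
  rw [le_div_iff₀ p1]
  have hexp : Real.exp (-(2 * (bd Γ (U : Set W) : ℝ) / k + Real.log k *
      ((vp Γ w (U : Set W) : ℝ) + kap k c m D w * ((U : Set W).ncard : ℝ)))) ≤
      Real.exp (-(2 * (Bd.card : ℝ) / k)) * Real.exp (-(Real.log k *
      ((vp Γ w (U : Set W) : ℝ) + kap k c m D w * ((U : Set W).ncard : ℝ)))) := by
    rw [← Real.exp_add, Real.exp_le_exp]
    have g1 : 2 * (Bd.card : ℝ) / k ≤ 2 * (bd Γ (U : Set W) : ℝ) / k := by
      apply div_le_div_of_nonneg_right _ hk0.le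
      linarith
    linarith
  have hprod : 0 ≤ ∏ z : W, uu Γ k (U : Set W) z ^ c := by
    apply Finset.prod_nonneg
    intro z _
    apply pow_nonneg
    unfold uu
    have h1 : (dg Γ (U : Set W) z : ℝ) ≤ k := by
      have h2 : dg Γ (U : Set W) z ≤ k := by
        rw [← hreg z]
        unfold dg
        exact Set.ncard_le_ncard (fun y hy => hy.2) (Set.toFinite _)
      exact_mod_cast h2
    split_ifs
    · positivity
    · rw [sub_nonneg, div_le_one hk0]
      exact h1
  rw [Fintype.card_prod, hΩ]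
  push_cast
  unfold Wt
  set E1 := Real.exp (-(2 * (Bd.card : ℝ) / k)) with hE1
  set E2 := Real.exp (-(Real.log k *
      ((vp Γ w (U : Set W) : ℝ) + kap k c m D w * ((U : Set W).ncard : ℝ)))) with hE2
  calc (∏ z : W, uu Γ k (U : Set W) z ^ c) * Real.exp (-(2 * (bd Γ (U : Set W) : ℝ) / k +
        Real.log k * ((vp Γ w (U : Set W) : ℝ) + kap k c m D w * ((U : Set W).ncard : ℝ)))) *
        ((Fintype.card (Pk Γ c) : ℝ) * ((Fintype.card (Sym2 X → Fin k) : ℝ) *
          (Fintype.card (C → Fin k) : ℝ)))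
      ≤ (∏ z : W, uu Γ k (U : Set W) z ^ c) * (E1 * E2) *
        ((Fintype.card (Pk Γ c) : ℝ) * ((Fintype.card (Sym2 X → Fin k) : ℝ) *
          (Fintype.card (C → Fin k) : ℝ))) :=
        mul_le_mul_of_nonneg_right (mul_le_mul_of_nonneg_left hexp hprod) (by positivity)
    _ = ((∏ z : W, uu Γ k (U : Set W) z ^ c) * (Fintype.card (Pk Γ c) : ℝ)) * (E1 * E2) *
        ((Fintype.card (Sym2 X → Fin k) : ℝ) * (Fintype.card (C → Fin k) : ℝ)) := by ring
    _ = (E2 * ((Fintype.card (Pk Γ' c) : ℝ) * (Fintype.card (Sym2 X → Fin k) : ℝ))) *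
        ((Fintype.card (Po Γ c U) : ℝ) * (E1 * (Fintype.card (C → Fin k) : ℝ))) := by
        rw [hpk]; ring
    _ ≤ (NI.card : ℝ) * ((Fintype.card (Po Γ c U) : ℝ) * (NO.card : ℝ)) := by
        apply mul_le_mul hin _ (by positivity) (by positivity)
        exact mul_le_mul_of_nonneg_left hout (by positivity)
    _ ≤ (NT.card : ℝ) := by exact_mod_cast hcard

end Pool.Agent.CG.H68
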